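import Pool.Agent.H67.LW.Base

/-!
Menger for two paths (part TP).
-/

set_option autoImplicit false

namespace LW

open Finset

section TPL

variable {W : Type} [Fintype W] [DecidableEq W] {M : SimpleGraph W}

/-- the walks stay in the reachable set -/
theorem TPL.reach {A : Finset W} {u x : W} (h : Lk M A u x) (B : Finset W)
    (hB : ∀ y, Lk M A u y → y ∈ B) : Lk M B u x := by
  refine h.induct (p := fun z => Lk M A u z ∧ Lk M B u z)
    ⟨Lk.refl h.left, Lk.refl (hB u (Lk.refl h.left))⟩ ?_ |>.2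
  intro x _ y hy hxy hp
  have h1 := hp.1.tail hxy hy
  exact ⟨h1, hp.2.tail hxy (hB y h1)⟩

/-- a linking set in which every vertex can be reached without the last one -/
theorem TPL.min {P₀ : Finset W} {a v : W} (h : Lk M P₀ a v) :
    ∃ P ⊆ P₀, Lk M P a v ∧ ∀ x ∈ P, x ≠ v → Lk M (P.erase v) a x := by
  classical
  refine ⟨insert v (univ.filter fun y => Lk M (P₀.erase v) a y), ?_, ?_, ?_⟩
  · intro x hx
    rcases mem_insert.1 hx with h1 | h1
    · rw [h1]
      exact h.right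
    · exact mem_of_mem_erase (mem_filter.1 h1).2.right
  · by_cases hav : a = v
    · subst hav
      exact Lk.refl (mem_insert_self _ _)
    · obtain ⟨y, hy, hyv⟩ : ∃ y, Lk M (P₀.erase v) a y ∧ M.Adj y v := by
        by_contra hcon
        push Not at hcon
        have h1 : Lk M (P₀.erase v) a v := h.induct (p := fun z => Lk M (P₀.erase v) a z)
          (Lk.refl (mem_erase.2 ⟨hav, h.left⟩)) fun x _ y hy hxy hp => by
            by_cases hyv : y = v
            · subst hyv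
              exact absurd hxy (hcon x hp)
            · exact hp.tail hxy (mem_erase.2 ⟨hyv, hy⟩)
        exact notMem_erase _ _ h1.right
      exact (TPL.reach hy _ fun z hz => mem_insert_of_mem (by simp [hz])).tail hyv
        (mem_insert_self _ _)
  · intro x hx hxv
    have h1 : Lk M (P₀.erase v) a x := by
      rcases mem_insert.1 hx with h2 | h2
      · exact absurd h2 hxv
      · exact (mem_filter.1 h2).2
    refine TPL.reach h1 _ fun z hz => ?_
    rw [mem_erase]
    exact ⟨(mem_erase.1 hz.right).1, mem_insert_of_mem (by simp [hz])⟩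

/-- the rerouting step -/
theorem TPL.step {H P Q B : Finset W} {a v w x : W} (hvw : M.Adj v w)
    (hQ : Lk M Q a v)
    (hPe : Lk M (P.erase v) a x) (hB : Lk M B w x) (hBv : v ∉ B)
    (hBS : ∀ y ∈ B, y ∈ P ∪ Q → y = x)
    (hD : ∀ D ∈ H, D ∈ P → D ∈ Q → D ≠ v → ¬ Lk M (univ \ {D}) a v) :
    ∃ P' Q' : Finset W, Lk M P' a w ∧ Lk M Q' a w ∧
      ∀ D ∈ H, D ∈ P' → D ∈ Q' → D ≠ w → ¬ Lk M (univ \ {D}) a w := by
  refine ⟨P.erase v ∪ B, insert w Q, ?_, ?_, ?_⟩
  · exact (hPe.mono subset_union_left).trans (hB.symm.mono subset_union_right)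
  · exact (hQ.mono (subset_insert _ _)).tail hvw (mem_insert_self _ _)
  · intro D hDH hDP hDQ hDw
    have hDQ' : D ∈ Q := (mem_insert.1 hDQ).resolve_left hDw
    have h1 : D ∈ P ∧ D ≠ v := by
      rcases mem_union.1 hDP with h2 | h2
      · exact ⟨mem_of_mem_erase h2, ne_of_mem_erase h2⟩
      · have h3 := hBS D h2 (mem_union_right _ hDQ')
        rw [h3]
        exact ⟨mem_of_mem_erase hPe.right, ne_of_mem_erase hPe.right⟩
    intro hL
    refine hD D hDH h1.1 hDQ' h1.2 (hL.tail hvw.symm ?_)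
    simp [Ne.symm h1.2]

theorem TPL.main (H : Finset W) {a h : W} (ha : a ∉ H) (hL : Lk M univ a h) :
    ∃ P Q : Finset W, Lk M P a h ∧ Lk M Q a h ∧
      ∀ D ∈ H, D ∈ P → D ∈ Q → D ≠ h → ¬ Lk M (univ \ {D}) a h := by
  classical
  refine hL.induct (p := fun v => ∃ P Q : Finset W, Lk M P a v ∧ Lk M Q a v ∧
      ∀ D ∈ H, D ∈ P → D ∈ Q → D ≠ v → ¬ Lk M (univ \ {D}) a v) ?_ ?_
  · exact ⟨{a}, {a}, Lk.refl (mem_singleton_self a), Lk.refl (mem_singleton_self a),
      fun D _ hD _ hDa => absurd (mem_singleton.1 hD) hDa⟩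
  · rintro v - w - hvw ⟨P₀, Q₀, hP₀, hQ₀, hD₀⟩
    obtain ⟨P, hPP, hP, hPe⟩ := TPL.min hP₀
    obtain ⟨Q, hQQ, hQ, hQe⟩ := TPL.min hQ₀
    have hD : ∀ D ∈ H, D ∈ P → D ∈ Q → D ≠ v → ¬ Lk M (univ \ {D}) a v :=
      fun D h1 h2 h3 h4 => hD₀ D h1 (hPP h2) (hQQ h3) h4
    by_cases hcase : v ∈ H ∧ Lk M (univ \ {v}) a w
    · obtain ⟨hvH, hR⟩ := hcase
      obtain ⟨x, hxS, B, hBA, hBS, hBL⟩ := hR.symm.first (S := P ∪ Q)
        (mem_union_left _ hP.left)
      have hBv : v ∉ B := fun hv => by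
        have := hBA hv
        simp at this
      have hxv : x ≠ v := fun hx => hBv (hx ▸ hBL.right)
      rcases mem_union.1 hxS with hxP | hxQ
      · exact TPL.step hvw hQ (hPe x hxP hxv) hBL hBv hBS hD
      · obtain ⟨Q', P', h1, h2, h3⟩ := TPL.step hvw hP (hQe x hxQ hxv) hBL hBv
          (fun y hy hyS => hBS y hy (by rwa [union_comm])) fun D h1 h2 h3 h4 => hD D h1 h3 h2 h4
        exact ⟨P', Q', h2, h1, fun D h4 h5 h6 h7 => h3 D h4 h6 h5 h7⟩
    · refine ⟨insert w P, insert w Q, (hP.mono (subset_insert _ _)).tail hvw (mem_insert_self _ _),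
        (hQ.mono (subset_insert _ _)).tail hvw (mem_insert_self _ _), ?_⟩
      intro D hDH hDP hDQ hDw hL'
      have h1 : D ∈ P := (mem_insert.1 hDP).resolve_left hDw
      have h2 : D ∈ Q := (mem_insert.1 hDQ).resolve_left hDw
      by_cases hDv : D = v
      · subst hDv
        exact hcase ⟨hDH, hL'⟩
      · refine hD D hDH h1 h2 hDv (hL'.tail hvw.symm ?_)
        simp [Ne.symm hDv]

end TPL

/-- TP -/
theorem TP_thm : S_TP := by
  intro W _ _ M H a h ha hh hL
  obtain ⟨P, Q, hP, hQ, hD⟩ := TPL.main H ha hL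
  exact ⟨P, Q, hP, hQ, fun D h1 h2 h3 => hD D h1 h2 h3 fun h4 => hh (h4 ▸ h1)⟩

end LW
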